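import Pool.Agent.QSX.StmtsC

/-! # Squad QSX, row CXR: the real form embeds algebraically. -/

set_option autoImplicit false

namespace Pool.Agent.QSX.H42

open Matrix Finset Pool.Agent.QSX

theorem cxr : CxrStmt := by
  rintro X X₀ hX ⟨D⟩
  refine ⟨D.T, D.P, D.T_mem, D.P_mem, ?_, D.P_inj, D.T_lie, D.T_ad⟩
  intro y y' h
  have h1 : D.T (y - y') + hX.J * D.T 0 = 0 := by
    rw [map_sub, h, sub_self, map_zero, mul_zero, add_zero]
  exact sub_eq_zero.mp (D.ind _ _ h1).1

end Pool.Agent.QSX.H42
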